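import Pool.Agent.J4H9.BF.Stm2
import Pool.Agent.J4H47.BF.Dic

/-!
# Project BF, (DCN): double flips in a normal subgroup, or a labelling (relative form of (DIC))
-/

set_option autoImplicit false

namespace Pool.Agent.J4H94.BF

open Pool.Agent.J4H9.BF Pool.Agent.J4H47.BF

section

variable {G X : Type} [Group G] [MulAction G X] {bar : X → X}

/-- There is a pure 3-cycle `a → b → c → a` in the subgroup `K`. -/
def CyK {G X : Type} [Group G] [MulAction G X] (K : Subgroup G) (bar : X → X) (a b c : X) : Prop :=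
  ∃ z ∈ K, z • a = b ∧ z • b = c ∧ z • c = a ∧
    ∀ x, x ≠ a → x ≠ bar a → x ≠ b → x ≠ bar b → x ≠ c → x ≠ bar c → z • x = x

namespace Dcn

open Pool.Agent.J4H47.BF.Dic

variable {K : Subgroup G} (S : Sgn G X bar)

include S

omit S in
lemma cy_rot {a b c : X} (h : CyK K bar a b c) : CyK K bar b c a := by
  obtain ⟨z, hz, h1, h2, h3, h4⟩ := h
  exact ⟨z, hz, h2, h3, h1, fun x hb hb' hc hc' ha ha' => h4 x ha ha' hb hb' hc hc'⟩

omit S in
lemma cy_inv {a b c : X} (h : CyK K bar a b c) : CyK K bar b a c := by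
  obtain ⟨z, hz, h1, h2, h3, h4⟩ := h
  refine ⟨z⁻¹, K.inv_mem hz, ?_, ?_, ?_, ?_⟩
  · rw [inv_smul_eq_iff, h1]
  · rw [inv_smul_eq_iff, h3]
  · rw [inv_smul_eq_iff, h2]
  · intro x hb hb' ha ha' hc hc'
    rw [inv_smul_eq_iff, h4 x ha ha' hb hb' hc hc']

lemma cy_bar {a b c : X} (h : CyK K bar a b c) : CyK K bar (bar a) (bar b) (bar c) := by
  obtain ⟨z, hz, h1, h2, h3, h4⟩ := h
  refine ⟨z, hz, ?_, ?_, ?_, ?_⟩
  · rw [← S.comm, h1]
  · rw [← S.comm, h2]
  · rw [← S.comm, h3]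
  · intro x ha' ha hb' hb hc' hc
    rw [S.bb] at ha hb hc
    exact h4 x ha ha' hb hb' hc hc'

lemma cy_smul (hK : K.Normal) {a b c : X} (σ : G) (h : CyK K bar a b c) : CyK K bar (σ • a) (σ • b) (σ • c) := by
  obtain ⟨z, hz, h1, h2, h3, h4⟩ := h
  refine ⟨σ * z * σ⁻¹, hK.conj_mem z hz σ, ?_, ?_, ?_, ?_⟩
  · rw [mul_smul, mul_smul, inv_smul_smul, h1]
  · rw [mul_smul, mul_smul, inv_smul_smul, h2]
  · rw [mul_smul, mul_smul, inv_smul_smul, h3]
  · intro x ha ha' hb hb' hc hc'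
    rw [mul_smul, mul_smul, smul_eq_iff_eq_inv_smul]
    have key : ∀ y, x ≠ σ • y → σ⁻¹ • x ≠ y := fun y h h' => h (by rw [← h', smul_inv_smul])
    rw [S.comm] at ha' hb' hc'
    exact h4 _ (key _ ha) (key _ ha') (key _ hb) (key _ hb') (key _ hc) (key _ hc')

/-- `ν ∈ K` flips the four pairs and fixes the other elements. -/
def F4K {G X : Type} [Group G] [MulAction G X] (K : Subgroup G) (bar : X → X) (a b c d : X) : Prop :=
  ∃ ν ∈ K, ν • a = bar a ∧ ν • b = bar b ∧ ν • c = bar c ∧ ν • d = bar d ∧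
    ∀ x, x ≠ a → x ≠ bar a → x ≠ b → x ≠ bar b → x ≠ c → x ≠ bar c → x ≠ d → x ≠ bar d →
      ν • x = x

/-- `ν ∈ K` flips two pairs and fixes the other elements. -/
def F2K {G X : Type} [Group G] [MulAction G X] (K : Subgroup G) (bar : X → X) (a b : X) : Prop :=
  ∃ ν ∈ K, ν • a = bar a ∧ ν • b = bar b ∧
    ∀ x, x ≠ a → x ≠ bar a → x ≠ b → x ≠ bar b → ν • x = x

lemma f2_all (hK : K.Normal) (M : MT G X bar 2) {a b : X} (hab : a ≠ b) (hab' : a ≠ bar b) (h : F2K K bar a b)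
    {x y : X} (hxy : x ≠ y) (hxy' : x ≠ bar y) : F2K K bar x y := by
  obtain ⟨σ, hσ⟩ := M ![a, b] ![x, y] (dist2 S.bb hab hab') (dist2 S.bb hxy hxy')
  obtain ⟨ν, hν, h1, h2, h3⟩ := h
  have s0 : σ • a = x ∨ σ • a = bar x := hσ 0
  have s1 : σ • b = y ∨ σ • b = bar y := hσ 1
  refine ⟨σ * ν * σ⁻¹, hK.conj_mem ν hν σ, flip_conj S h1 s0, flip_conj S h2 s1, fun w w1 w2 w3 w4 => ?_⟩
  obtain ⟨e1, e2⟩ := ne_of_pair S s0 w1 w2
  obtain ⟨e3, e4⟩ := ne_of_pair S s1 w3 w4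
  rw [mul_smul, mul_smul, h3 _ e1 e2 e3 e4, smul_inv_smul]

lemma f4_all (hK : K.Normal) (M : MT G X bar 4) {a b c d : X} (D : Dist bar ![a, b, c, d]) (h : F4K K bar a b c d)
    {x y p q : X} (D' : Dist bar ![x, y, p, q]) : F4K K bar x y p q := by
  obtain ⟨σ, hσ⟩ := M ![a, b, c, d] ![x, y, p, q] D D'
  obtain ⟨ν, hν, h1, h2, h3, h4, h5⟩ := h
  have s0 : σ • a = x ∨ σ • a = bar x := hσ 0
  have s1 : σ • b = y ∨ σ • b = bar y := hσ 1
  have s2 : σ • c = p ∨ σ • c = bar p := hσ 2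
  have s3 : σ • d = q ∨ σ • d = bar q := hσ 3
  refine ⟨σ * ν * σ⁻¹, hK.conj_mem ν hν σ, flip_conj S h1 s0, flip_conj S h2 s1, flip_conj S h3 s2, flip_conj S h4 s3,
    fun w w1 w2 w3 w4 w5 w6 w7 w8 => ?_⟩
  obtain ⟨e1, e2⟩ := ne_of_pair S s0 w1 w2
  obtain ⟨e3, e4⟩ := ne_of_pair S s1 w3 w4
  obtain ⟨e5, e6⟩ := ne_of_pair S s2 w5 w6
  obtain ⟨e7, e8⟩ := ne_of_pair S s3 w7 w8
  rw [mul_smul, mul_smul, h5 _ e1 e2 e3 e4 e5 e6 e7 e8, smul_inv_smul]

/-- Case 1: two pure 3-cycles with one common pair of pairs, of different signs. -/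
lemma case1 {a b c d : X} (h : D3 bar a b c) (hd : D3 bar a b d) (hcd : c ≠ d) (hcd' : c ≠ bar d)
    (C1 : CyK K bar a b c) (C2 : CyK K bar a (bar b) d) : F4K K bar a b c d := by
  obtain ⟨z, hz, h1, h2, h3, h4⟩ := C1
  obtain ⟨y, hy, k1, k2, k3, k4⟩ := C2
  have h1' : z • bar a = bar b := by rw [← S.comm, h1]
  have h2' : z • bar b = bar c := by rw [← S.comm, h2]
  have h3' : z • bar c = bar a := by rw [← S.comm, h3]
  have k1' : y • bar a = b := by rw [← S.comm, k1, S.bb]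
  have k2' : y • b = bar d := by rw [← k2, ← S.comm, S.bb]
  have k2'' : y • b = bar d := by
    have := congrArg bar k2
    rw [S.comm, S.bb] at this
    exact this
  have k3' : y • bar d = bar a := by rw [← S.comm, k3]
  have hd1 : z • d = d := h4 d hd.ac.symm (bar_ne S hd.ac').symm hd.bc.symm (bar_ne S hd.bc').symm
    hcd.symm (bar_ne S hcd').symm
  have hd2 : z • bar d = bar d := by rw [← S.comm, hd1]
  have hc1 : y • c = c := k4 c h.ac.symm (bar_ne S h.ac').symm (bar_ne S h.bc').symm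
    (by rw [S.bb]; exact h.bc.symm) hcd hcd'
  have hc2 : y • bar c = bar c := by rw [← S.comm, hc1]
  refine ⟨z * y * (z * y), K.mul_mem (K.mul_mem hz hy) (K.mul_mem hz hy), ?_, ?_, ?_, ?_, ?_⟩
  · rw [mul_smul, mul_smul, mul_smul, k1, h2', hc2, h3']
  · rw [mul_smul, mul_smul, mul_smul, k2'', hd2, k3', h1']
  · rw [mul_smul, mul_smul, mul_smul, hc1, h3, k1, h2']
  · rw [mul_smul, mul_smul, mul_smul, k3, h1, k2'', hd2]
  · intro x a1 a2 b1 b2 c1 c2 d1 d2
    have e1 : y • x = x := k4 x a1 a2 b2 (by rw [S.bb]; exact b1) d1 d2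
    have e2 : z • x = x := h4 x a1 a2 b1 b2 c1 c2
    rw [mul_smul, mul_smul, mul_smul, e1, e2, e1, e2]

/-- Case 2: two pure 3-cycles on the same pairs. -/
lemma case2 {a b c : X} (C1 : CyK K bar a b c) (C2 : CyK K bar a (bar b) c) :
    F2K K bar a b := by
  obtain ⟨z, hz, h1, h2, h3, h4⟩ := C1
  obtain ⟨y, hy, k1, k2, k3, k4⟩ := C2
  have h1' : z • bar a = bar b := by rw [← S.comm, h1]
  have h2' : z • bar b = bar c := by rw [← S.comm, h2]
  have h3' : z • bar c = bar a := by rw [← S.comm, h3]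
  have k2' : y • b = bar c := by
    have := congrArg bar k2
    rw [S.comm, S.bb] at this
    exact this
  refine ⟨z⁻¹ * y, K.mul_mem (K.inv_mem hz) hy, ?_, ?_, ?_⟩
  · rw [mul_smul, k1, inv_smul_eq_iff, h1']
  · rw [mul_smul, k2', inv_smul_eq_iff, h2']
  · intro x a1 a2 b1 b2
    rw [mul_smul, inv_smul_eq_iff]
    by_cases c1 : x = c
    · rw [c1, k3, h3]
    by_cases c2 : x = bar c
    · rw [c2, ← S.comm, k3, h3']
    rw [k4 x a1 a2 b2 (by rw [S.bb]; exact b1) c1 c2, h4 x a1 a2 b1 b2 c1 c2]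

lemma case3 {a b c : X} (C1 : CyK K bar a b c)
    (C2 : CyK K bar a (bar b) (bar c)) : F2K K bar a c := by
  obtain ⟨z, hz, h1, h2, h3, h4⟩ := C1
  obtain ⟨y, hy, k1, k2, k3, k4⟩ := C2
  have h1' : z • bar a = bar b := by rw [← S.comm, h1]
  have h2' : z • bar b = bar c := by rw [← S.comm, h2]
  have h3' : z • bar c = bar a := by rw [← S.comm, h3]
  have k3' : y • c = bar a := by
    have := congrArg bar k3
    rw [S.comm, S.bb] at this
    exact this
  refine ⟨z⁻¹ * y, K.mul_mem (K.inv_mem hz) hy, ?_, ?_, ?_⟩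
  · rw [mul_smul, k1, inv_smul_eq_iff, h1']
  · rw [mul_smul, k3', inv_smul_eq_iff, h3']
  · intro x a1 a2 c1 c2
    rw [mul_smul, inv_smul_eq_iff]
    by_cases b1 : x = b
    · rw [b1, h2, ← S.bb c, ← k2, S.comm, S.bb]
    by_cases b2 : x = bar b
    · rw [b2, k2, h2']
    rw [k4 x a1 a2 b2 (by rw [S.bb]; exact b1) c2 (by rw [S.bb]; exact c1),
      h4 x a1 a2 b1 b2 c1 c2]

omit S in
lemma start {z : G} {x : X} (hz : z ∈ K) (P : PureCyc G X bar 3 z x) :
    ∃ a b c, D3 bar a b c ∧ CyK K bar a b c := by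
  have e0 : z ^ 0 • x = x := by rw [pow_zero, one_smul]
  have e1 : z ^ 1 • x = z • x := by rw [pow_one]
  refine ⟨x, z • x, z ^ 2 • x, ⟨?_, ?_, ?_, ?_, ?_, ?_⟩, z, hz, rfl, ?_, ?_, ?_⟩
  · intro h
    have := P.inj 0 (by norm_num) 1 (by norm_num) (by rw [e0, e1]; exact h)
    omega
  · intro h
    exact P.ne 0 1 (by rw [e0, e1]; exact h)
  · intro h
    have := P.inj 1 (by norm_num) 2 (by norm_num) (by rw [e1]; exact h)
    omega
  · intro h
    exact P.ne 1 2 (by rw [e1]; exact h)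
  · intro h
    have := P.inj 0 (by norm_num) 2 (by norm_num) (by rw [e0]; exact h)
    omega
  · intro h
    exact P.ne 0 2 (by rw [e0]; exact h)
  · rw [pow_two, mul_smul]
  · rw [← mul_smul, ← pow_succ']
    exact P.per
  · intro w a1 a2 b1 b2 c1 c2
    rcases P.fix w with ⟨k, hk⟩ | h
    · exfalso
      rw [pow_mod3 P.per k] at hk
      have h3 : k % 3 < 3 := Nat.mod_lt _ (by norm_num)
      interval_cases k % 3
      · rw [e0] at hk
        exact hk.elim a1 a2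
      · rw [e1] at hk
        exact hk.elim b1 b2
      · exact hk.elim c1 c2
    · exact h

lemma signs (hK : K.Normal) (M : MT G X bar 3) {a₀ b₀ c₀ : X} (h₀ : D3 bar a₀ b₀ c₀) (C₀ : CyK K bar a₀ b₀ c₀)
    {a b c : X} (h : D3 bar a b c) :
    ∃ b' c', (b' = b ∨ b' = bar b) ∧ (c' = c ∨ c' = bar c) ∧ CyK K bar a b' c' := by
  obtain ⟨σ, hσ⟩ := M ![a₀, b₀, c₀] ![a, b, c] (dist3 S.bb h₀) (dist3 S.bb h)
  have C := cy_smul S hK σ C₀
  have s0 : σ • a₀ = a ∨ σ • a₀ = bar a := hσ 0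
  have s1 : σ • b₀ = b ∨ σ • b₀ = bar b := hσ 1
  have s2 : σ • c₀ = c ∨ σ • c₀ = bar c := hσ 2
  rcases s0 with s0 | s0
  · rw [s0] at C
    exact ⟨σ • b₀, σ • c₀, s1, s2, C⟩
  · have C' := cy_bar S C
    rw [s0, S.bb] at C'
    refine ⟨bar (σ • b₀), bar (σ • c₀), ?_, ?_, C'⟩
    · rcases s1 with e | e
      · right; rw [e]
      · left; rw [e, S.bb]
    · rcases s2 with e | e
      · right; rw [e]
      · left; rw [e, S.bb]

/-- Double flips from the flips of four pairs. -/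
lemma double_of_f4 (hK : K.Normal) [Finite X] (hc : 8 < Nat.card X) (M : MT G X bar 4) {a b c d : X}
    (D : Dist bar ![a, b, c, d]) (h : F4K K bar a b c d) {x y : X} (h1 : x ≠ y) (h2 : x ≠ bar y) :
    F2K K bar x y := by
  classical
  obtain ⟨p, hp⟩ := exists_out hc {x, bar x, y, bar y}
    ((Finset.card_le_four).trans (by norm_num))
  simp only [Finset.mem_insert, Finset.mem_singleton, not_or] at hp
  obtain ⟨p1, p2, p3, p4⟩ := hp
  obtain ⟨q, hq⟩ := exists_out hc {x, bar x, y, bar y, p, bar p}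
    ((Finset.card_le_six).trans (by norm_num))
  simp only [Finset.mem_insert, Finset.mem_singleton, not_or] at hq
  obtain ⟨q1, q2, q3, q4, q5, q6⟩ := hq
  obtain ⟨s, hs⟩ := exists_out hc {x, bar x, y, bar y, p, bar p, q, bar q} (by
    refine (Finset.card_insert_le _ _).trans ?_
    refine (Nat.succ_le_succ (Finset.card_insert_le _ _)).trans ?_
    have := Finset.card_le_six (a := y) (b := bar y) (c := p) (d := bar p) (e := q) (f := bar q)
    omega)
  simp only [Finset.mem_insert, Finset.mem_singleton, not_or] at hs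
  obtain ⟨s1, s2, s3, s4, s5, s6, s7, s8⟩ := hs
  have Dp : D3 bar p q s := ⟨Ne.symm q5, (bar_ne S q6).symm, Ne.symm s7, (bar_ne S s8).symm,
    Ne.symm s5, (bar_ne S s6).symm⟩
  have Dx : Dist bar ![x, p, q, s] := dist4 S.bb Dp (Ne.symm p1) (bar_ne S p2).symm (Ne.symm q1)
    (bar_ne S q2).symm (Ne.symm s1) (bar_ne S s2).symm
  have Dy : Dist bar ![y, p, q, s] := dist4 S.bb Dp (Ne.symm p3) (bar_ne S p4).symm (Ne.symm q3)
    (bar_ne S q4).symm (Ne.symm s3) (bar_ne S s4).symm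
  obtain ⟨ν, hν, n1, n2, n3, n4, n5⟩ := f4_all S hK M D h Dx
  obtain ⟨μ, hμ, m1, m2, m3, m4, m5⟩ := f4_all S hK M D h Dy
  have fx : μ • x = x := m5 x h1 h2 (Ne.symm p1) (bar_ne S p2).symm (Ne.symm q1)
    (bar_ne S q2).symm (Ne.symm s1) (bar_ne S s2).symm
  have fy : ν • y = y := n5 y h1.symm (bar_ne S h2).symm (Ne.symm p3) (bar_ne S p4).symm
    (Ne.symm q3) (bar_ne S q4).symm (Ne.symm s3) (bar_ne S s4).symm
  have key : ∀ w, ν • w = bar w → μ • w = bar w → (ν * μ) • w = w := by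
    intro w e1 e2
    rw [mul_smul, e2, ← S.comm, e1, S.bb]
  have key' : ∀ w, (ν * μ) • w = w → (ν * μ) • bar w = bar w := by
    intro w e
    rw [← S.comm, e]
  refine ⟨ν * μ, K.mul_mem hν hμ, ?_, ?_, ?_⟩
  · rw [mul_smul, fx, n1]
  · rw [mul_smul, m1, ← S.comm, fy]
  · intro w w1 w2 w3 w4
    by_cases e1 : w = p
    · rw [e1]; exact key p n2 m2
    by_cases e2 : w = bar p
    · rw [e2]; exact key' p (key p n2 m2)
    by_cases e3 : w = q
    · rw [e3]; exact key q n3 m3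
    by_cases e4 : w = bar q
    · rw [e4]; exact key' q (key q n3 m3)
    by_cases e5 : w = s
    · rw [e5]; exact key s n4 m4
    by_cases e6 : w = bar s
    · rw [e6]; exact key' s (key s n4 m4)
    rw [mul_smul, m5 w w3 w4 e1 e2 e3 e4 e5 e6, n5 w w1 w2 e1 e2 e3 e4 e5 e6]

/-- `a` and `b` have the same label. -/
def SameK {G X : Type} [Group G] [MulAction G X] (K : Subgroup G) (bar : X → X) (a b : X) : Prop :=
  ∃ c, D3 bar a b c ∧ CyK K bar a b c

lemma same_symm {a b : X} (h : SameK K bar a b) : SameK K bar b a := by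
  obtain ⟨c, h1, h2⟩ := h
  exact ⟨c, d3_swap S h1, cy_inv h2⟩

lemma same_bar {a b : X} (h : SameK K bar a b) : SameK K bar (bar a) (bar b) := by
  obtain ⟨c, h1, h2⟩ := h
  exact ⟨bar c, d3_bar S h1, cy_bar S h2⟩

lemma same_smul (hK : K.Normal) {a b : X} (σ : G) (h : SameK K bar a b) : SameK K bar (σ • a) (σ • b) := by
  obtain ⟨c, h1, h2⟩ := h
  exact ⟨σ • c, d3_smul S σ h1, cy_smul S hK σ h2⟩

/-- A labelling. -/
lemma labelling (hK : K.Normal) [Finite X] (hc : 4 < Nat.card X) (M : MT G X bar 3) {a₀ b₀ c₀ : X}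
    (h₀ : D3 bar a₀ b₀ c₀) (C₀ : CyK K bar a₀ b₀ c₀)
    (H : ∀ a b, SameK K bar a b → SameK K bar a (bar b) → False) : Labelling G X bar := by
  classical
  -- existence
  have hex : ∀ a b : X, a ≠ b → a ≠ bar b → SameK K bar a b ∨ SameK K bar a (bar b) := by
    intro a b h1 h2
    obtain ⟨c, hcc⟩ := exists_out hc {a, bar a, b, bar b} Finset.card_le_four
    simp only [Finset.mem_insert, Finset.mem_singleton, not_or] at hcc
    obtain ⟨c1, c2, c3, c4⟩ := hcc
    have D : D3 bar a b c := ⟨h1, h2, Ne.symm c3, (bar_ne S c4).symm, Ne.symm c1,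
      (bar_ne S c2).symm⟩
    obtain ⟨b', c', hb', hc', hC⟩ := signs S hK M h₀ C₀ D
    have D' : D3 bar a b' c' := by
      rcases hb' with rfl | rfl <;> rcases hc' with rfl | rfl
      · exact D
      · exact d3_bar₃ S D
      · exact d3_bar₂ S D
      · exact d3_bar₃ S (d3_bar₂ S D)
    rcases hb' with rfl | rfl
    · exact Or.inl ⟨c', D', hC⟩
    · exact Or.inr ⟨c', D', hC⟩
  have htr : ∀ a b c : X, D3 bar a b c → SameK K bar a b → SameK K bar b c → SameK K bar a c := by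
    intro a b c D hab hbc
    obtain ⟨b', c', hb', hc', hC⟩ := signs S hK M h₀ C₀ D
    have D' : D3 bar a b' c' := by
      rcases hb' with rfl | rfl <;> rcases hc' with rfl | rfl
      · exact D
      · exact d3_bar₃ S D
      · exact d3_bar₂ S D
      · exact d3_bar₃ S (d3_bar₂ S D)
    rcases hb' with rfl | rfl
    · rcases hc' with rfl | rfl
      · exact same_symm S ⟨b', d3_rot S (d3_rot S D'), cy_rot (cy_rot hC)⟩
      · exact (H b' c hbc ⟨a, d3_rot S D', cy_rot hC⟩).elim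
    · exact (H a b hab ⟨c', D', hC⟩).elim
  obtain ⟨x₀, -⟩ := exists_out (n := 0) (lt_of_le_of_lt (Nat.zero_le _) hc) (∅ : Finset X)
    (by simp)
  have hne : ∀ x, x ≠ bar x := fun x h => S.ne x h.symm
  set R : Set X := {x | x = x₀ ∨ SameK K bar x₀ x} with hR
  have memR : ∀ x, x ∈ R ↔ x = x₀ ∨ SameK K bar x₀ x := fun x => Iff.rfl
  have hR1 : ∀ x, x ∈ R → bar x ∉ R := by
    intro x hx hx'
    rw [memR] at hx hx'
    rcases hx with rfl | hx
    · rcases hx' with h | ⟨c, h1, -⟩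
      · exact hne _ h.symm
      · exact h1.ab' (by rw [S.bb])
    · rcases hx' with h | h
      · obtain ⟨c, h1, -⟩ := hx
        exact h1.ab' h.symm
      · exact H _ _ hx h
  have hR2 : ∀ x, bar x ∉ R → x ∈ R := by
    intro x hx
    by_contra h
    rw [memR, not_or] at hx h
    rcases hex x₀ x (Ne.symm h.1) (Ne.symm hx.1) with e | e
    · exact h.2 e
    · exact hx.2 e
  have hL : ∀ y w, y ∈ R → SameK K bar y w → w ∈ R := by
    intro y w hy hw
    rw [memR] at hy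
    rcases hy with rfl | hy
    · exact (memR w).2 (Or.inr hw)
    · by_cases h1 : w = x₀
      · exact (memR w).2 (Or.inl h1)
      by_cases h2 : w = bar x₀
      · exfalso
        rw [h2] at hw
        exact H y x₀ (same_symm S hy) hw
      refine (memR w).2 (Or.inr (htr x₀ y w ?_ hy hw))
      obtain ⟨c, hy1, -⟩ := hy
      obtain ⟨d, hw1, -⟩ := hw
      exact ⟨hy1.ab, hy1.ab', hw1.ab, hw1.ab', Ne.symm h1, (bar_ne S h2).symm⟩
  refine ⟨R, fun x => ⟨hR1 x, hR2 x⟩, fun σ => ?_⟩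
  by_cases h : σ • x₀ ∈ R
  · left
    intro x hx
    rcases (memR x).1 hx with rfl | hx
    · exact h
    · exact hL _ _ h (same_smul S hK σ hx)
  · right
    have h' : bar (σ • x₀) ∈ R := by
      by_contra h2
      exact h (hR2 _ h2)
    intro x hx
    rcases (memR x).1 hx with rfl | hx
    · exact h
    · intro h3
      exact hR1 _ h3 (hL _ _ h' (same_bar S (same_smul S hK σ hx)))

end Dcn

end

open Pool.Agent.J4H47.BF.Dic in
/-- **(DCN)** -/
theorem t_DCN : S_DCN := by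
  intro G X _ _ _ _ bar g S hcard hg hM K hK hz
  obtain ⟨z, x₁, hzK, P⟩ := hz
  obtain ⟨a, b, c, D, C⟩ := Dcn.start hzK P
  by_cases H : ∀ a b, Dcn.SameK K bar a b → Dcn.SameK K bar a (bar b) → False
  · right
    exact Dcn.labelling S hK (by omega) (hM 3 (by norm_num)) D C H
  · left
    push Not at H
    obtain ⟨a, b, ⟨c, D1, C1⟩, ⟨d, D2, C2⟩, -⟩ := H
    have D2' : D3 bar a b d := by
      have := d3_bar₂ S D2
      rwa [S.bb] at this
    have all : ∀ x y : X, x ≠ y → x ≠ bar y → Dcn.F2K K bar x y := by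
      by_cases h1 : c = d
      · subst h1
        intro x y hxy hxy'
        exact Dcn.f2_all S hK (hM 2 (by norm_num)) D1.ab D1.ab' (Dcn.case2 S C1 C2) hxy hxy'
      by_cases h2 : c = bar d
      · have h3 : d = bar c := by rw [h2, S.bb]
        subst h3
        intro x y hxy hxy'
        exact Dcn.f2_all S hK (hM 2 (by norm_num)) D1.ac D1.ac' (Dcn.case3 S C1 C2) hxy hxy'
      intro x y hxy hxy'
      have D3' : D3 bar b c d := ⟨D1.bc, D1.bc', h1, h2, D2'.bc, D2'.bc'⟩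
      exact Dcn.double_of_f4 S hK (by omega) (hM 4 (by norm_num))
        (dist4 S.bb D3' D1.ab D1.ab' D1.ac D1.ac' D2'.ac D2'.ac')
        (Dcn.case1 S D1 D2' h1 h2 C1 C2) hxy hxy'
    intro x y h1 h2
    obtain ⟨ν, hν, n1, n2, n3⟩ := all x y (Ne.symm h1) (bar_ne S h2).symm
    exact ⟨ν, hν, n1, n2, n3⟩

end Pool.Agent.J4H94.BF
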